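import Pool.Agent.UlamWelch.Transfer

/-!
Problem MP_0eb1a9_lc, Q1: if Player II wins the Ulam game of limit length `γ` on `κ₀`, then on the
next inaccessible cardinal `κ` above `κ₀` she wins the Ulam game of length `γ` but neither the
Welch game of length `γ` nor `𝒢*_γ`.
-/

set_option autoImplicit false

universe u

namespace Pool.Agent.Results.MP_0eb1a9_lc.NextInaccessible

open Cardinal Ordinal Pool.Agent.UlamWelch

theorem result {X₀ X : Type u} (hX : (#X).IsInaccessible) (h₀X : #X₀ < #X)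
    (hno : ∀ ν : Cardinal.{u}, #X₀ < ν → ν < #X → ¬ ν.IsInaccessible)
    {γ : Ordinal.{u}} (hγ : Order.IsSuccLimit γ) (h : PlayerIIWinsUlam X₀ γ) :
    PlayerIIWinsUlam X γ ∧ ¬ PlayerIIWinsWelch X γ ∧ ¬ PlayerIIWinsStar X γ :=
  next_inaccessible hX h₀X hno hγ h

end Pool.Agent.Results.MP_0eb1a9_lc.NextInaccessible
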