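import Pool.Agent.UG.Fin

/-!
# Player II wins the Ulam games on a weakly compact cardinal, but not the games `G*`

If ZFC with a measurable cardinal has a model, then it has a model with a weakly compact cardinal
`κ` and an inaccessible cardinal `m < κ` such that player II has a winning strategy in the Ulam game
of every length `γ ≤ m` on `κ`, but in no game `G*_γ` on `κ` and in no Welch game of length greater
than `ω` on `κ`.

The model is a generic extension of a countable model with a measurable cardinal `κ` by the Easton
product of the forcings `Add(α, 1)`, `α` inaccessible, `m < α < κ`.  The generic subsets of the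
cardinals `α` show that `κ` is not ineffable in the extension; with this player I beats every
strategy of player II in `G*_γ`.  The strategy of player II in the Ulam game uses functions which
assign to almost all `α` a condition with coordinates at least `α`.
-/

namespace Pool.Agent.Results.MP_0eb1a9_lc.UlamNotStar

open Pool.Agent.BVM Pool.Agent.SCC Pool.Agent.UG

universe u

/-- If some structure `(M, E)` is a model of ZFC with a measurable cardinal, then there is a model
`(M', E')` of ZFC with an inaccessible and weakly compact cardinal `κ` and an inaccessible cardinal
`m < κ` such that in `(M', E')` player II has a winning strategy in the Ulam game of length `γ` on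
`κ` for every limit ordinal `γ ≤ m`, but for no limit ordinal `γ` in the game `G*_γ` on `κ`, and for
no ordinal `γ > ω` in the Welch game of length `γ` on `κ`. -/
theorem result {M : Type u} (E : M → M → Prop) (hE : ZFC E) (hm : ∃ κ, Measurable E κ) :
    ∃ (M' : Type) (E' : M' → M' → Prop), ZFC E' ∧
      ∃ κ m, Inaccessible E' κ ∧ WeaklyCompact E' κ ∧ Inaccessible E' m ∧ E' m κ ∧
        (∀ γ, Limit E' γ → (γ = m ∨ E' γ m) → UlamWin E' κ γ ∧ BigUlamWin E' κ γ) ∧
        (∀ γ, Limit E' γ → ¬ StarWin E' κ γ) ∧
        ∀ γ w, Ordl E' γ → Omega E' w → E' w γ → ¬ WelchWin E' κ γ := by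
  obtain ⟨M', E', h, κ, m, h1⟩ := main E hE hm
  exact ⟨M', E', h, κ, m, h1.1.1, h1⟩

end Pool.Agent.Results.MP_0eb1a9_lc.UlamNotStar
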